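import Pool.Agent.L0h29.AL.ArtDefs

/-!
# Project AL, module RED: if the label of `s, t` is infinite, the Artin group is an amalgam
-/

set_option autoImplicit false

namespace Pool.Agent.L0h68.AL

open Pool.Agent.K7.H20.AW Pool.Agent.L0h29.AL Pool.Agent.Helper741 Pool.Agent.K7.H87.FJ6

section red

variable {B : Type*} [DecidableEq B] (M : CoxeterMatrix B) {s t : B} (hst : s ≠ t)

theorem C_le (τ : Bool) : P M {s, t}ᶜ ≤ AA M s t τ := by
  cases τ
  · show P M {s, t}ᶜ ≤ P M {s}ᶜ
    exact P_mono (by intro x hx; simp only [Set.mem_compl_iff, Set.mem_insert_iff,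
      Set.mem_singleton_iff, not_or] at hx ⊢; exact hx.1)
  · show P M {s, t}ᶜ ≤ P M {t}ᶜ
    exact P_mono (by intro x hx; simp only [Set.mem_compl_iff, Set.mem_insert_iff,
      Set.mem_singleton_iff, not_or] at hx ⊢; exact hx.2)

/-- the inclusions of the amalgam -/
def ph (s t : B) (τ : Bool) : (P M {s, t}ᶜ : Subgroup (Art M)) →* (AA M s t τ : Subgroup (Art M)) :=
  Subgroup.inclusion (C_le M τ)

theorem ph_inj (τ : Bool) : Function.Injective (ph M s t τ) := Subgroup.inclusion_injective _

theorem gt_mem {x : B} (hx : x ≠ t) : g M x ∈ AA M s t true := by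
  show g M x ∈ P M {t}ᶜ
  exact g_mem (by simpa using hx)

theorem gs_mem {x : B} (hx : x ≠ s) : g M x ∈ AA M s t false := by
  show g M x ∈ P M {s}ᶜ
  exact g_mem (by simpa using hx)

/-- the images of the generators -/
noncomputable def th0 (x : B) : Monoid.PushoutI (ph M s t) :=
  if hx : x = t then Monoid.PushoutI.of (φ := ph M s t) false ⟨g M x, gs_mem M (by rw [hx]; exact hst.symm)⟩
  else Monoid.PushoutI.of (φ := ph M s t) true ⟨g M x, gt_mem M hx⟩

theorem th0_true {x : B} (hx : x ≠ t) :
    th0 M hst x = Monoid.PushoutI.of (φ := ph M s t) true ⟨g M x, gt_mem M hx⟩ := dif_neg hx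

theorem th0_false {x : B} (hx : x ≠ s) :
    th0 M hst x = Monoid.PushoutI.of (φ := ph M s t) false ⟨g M x, gs_mem M hx⟩ := by
  by_cases hxt : x = t
  · exact dif_pos hxt
  · rw [th0_true M hst hxt]
    have hC : g M x ∈ P M {s, t}ᶜ := g_mem (by simp [hx, hxt])
    have h1 := Monoid.PushoutI.of_apply_eq_base (ph M s t) true ⟨g M x, hC⟩
    have h2 := Monoid.PushoutI.of_apply_eq_base (ph M s t) false ⟨g M x, hC⟩
    exact h1.trans h2.symm

theorem alt_of (τ : Bool) {i j : B} (hi : g M i ∈ AA M s t τ) (hj : g M j ∈ AA M s t τ) :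
    alt (Monoid.PushoutI.of (φ := ph M s t) τ ⟨g M i, hi⟩)
      (Monoid.PushoutI.of (φ := ph M s t) τ ⟨g M j, hj⟩) (M i j) =
    alt (Monoid.PushoutI.of (φ := ph M s t) τ ⟨g M j, hj⟩)
      (Monoid.PushoutI.of (φ := ph M s t) τ ⟨g M i, hi⟩) (M i j) := by
  rw [← map_alt, ← map_alt]
  congr 1
  apply Subtype.ext
  have h1 := map_alt (AA M s t τ).subtype ⟨g M i, hi⟩ ⟨g M j, hj⟩ (M i j)
  have h2 := map_alt (AA M s t τ).subtype ⟨g M j, hj⟩ ⟨g M i, hi⟩ (M i j)
  have h3 : alt (g M i) (g M j) (M i j) = alt (g M j) (g M i) (M i j) := Sh.rel i j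
  exact h1.trans (h3.trans h2.symm)

/-- the homomorphism to the amalgam -/
noncomputable def th (h0 : M s t = 0) : Art M →* Monoid.PushoutI (ph M s t) :=
  Sh.lift (th0 M hst) (by
    intro i j
    by_cases h1 : i ≠ t ∧ j ≠ t
    · rw [th0_true M hst h1.1, th0_true M hst h1.2]
      exact alt_of M true _ _
    · by_cases h2 : i ≠ s ∧ j ≠ s
      · rw [th0_false M hst h2.1, th0_false M hst h2.2]
        exact alt_of M false _ _
      · have h3 : M i j = 0 := by
          have h1' : i = t ∨ j = t := by
            by_contra hc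
            exact h1 (not_or.1 hc)
          have h2' : i = s ∨ j = s := by
            by_contra hc
            exact h2 (not_or.1 hc)
          rcases h1' with rfl | rfl
          · rcases h2' with rfl | rfl
            · exact absurd rfl hst
            · rw [M.symmetric]; exact h0
          · rcases h2' with rfl | rfl
            · exact h0
            · exact absurd rfl hst
        rw [h3, alt_zero, alt_zero]) (fun i => pow_zero _)

theorem th_mem (h0 : M s t = 0) (τ : Bool) (a : Art M) (ha : a ∈ AA M s t τ) :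
    th M hst h0 a = Monoid.PushoutI.of (φ := ph M s t) τ ⟨a, ha⟩ := by
  cases τ
  · have key : ∀ (a : Art M) (ha : a ∈ P M {s}ᶜ), th M hst h0 a =
        Monoid.PushoutI.of (φ := ph M s t) false ⟨a, ha⟩ := by
      intro a ha
      induction ha using Subgroup.closure_induction with
      | mem x hx =>
        obtain ⟨b, hb, rfl⟩ := hx
        have hb' : b ≠ s := by simpa using hb
        exact (Sh.lift_gen _ _ _ b).trans (th0_false M hst hb')
      | one => rw [map_one]; exact (map_one (Monoid.PushoutI.of (φ := ph M s t) false)).symm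
      | mul x y hx hy ihx ihy =>
        rw [map_mul, ihx, ihy]
        exact (map_mul (Monoid.PushoutI.of (φ := ph M s t) false) (⟨x, hx⟩ : AA M s t false)
          ⟨y, hy⟩).symm
      | inv x hx ihx =>
        rw [map_inv, ihx]
        exact (map_inv (Monoid.PushoutI.of (φ := ph M s t) false) (⟨x, hx⟩ : AA M s t false)).symm
    exact key a ha
  · have key : ∀ (a : Art M) (ha : a ∈ P M {t}ᶜ), th M hst h0 a =
        Monoid.PushoutI.of (φ := ph M s t) true ⟨a, ha⟩ := by
      intro a ha
      induction ha using Subgroup.closure_induction with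
      | mem x hx =>
        obtain ⟨b, hb, rfl⟩ := hx
        have hb' : b ≠ t := by simpa using hb
        exact (Sh.lift_gen _ _ _ b).trans (th0_true M hst hb')
      | one => rw [map_one]; exact (map_one (Monoid.PushoutI.of (φ := ph M s t) true)).symm
      | mul x y hx hy ihx ihy =>
        rw [map_mul, ihx, ihy]
        exact (map_mul (Monoid.PushoutI.of (φ := ph M s t) true) (⟨x, hx⟩ : AA M s t true)
          ⟨y, hy⟩).symm
      | inv x hx ihx =>
        rw [map_inv, ihx]
        exact (map_inv (Monoid.PushoutI.of (φ := ph M s t) true) (⟨x, hx⟩ : AA M s t true)).symm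
    exact key a ha

/-- lift a list of elements of the two subgroups -/
theorem exists_list (l : List (Bool × Art M)) (h : ∀ x ∈ l, x.2 ∈ AA M s t x.1) :
    ∃ L : List (Σ τ : Bool, (AA M s t τ : Subgroup (Art M))),
      L.map (fun z => (z.1, (z.2 : Art M))) = l := by
  induction l with
  | nil => exact ⟨[], rfl⟩
  | cons a l ih =>
    obtain ⟨L, hL⟩ := ih (fun x hx => h x (List.mem_cons_of_mem _ hx))
    exact ⟨⟨a.1, ⟨a.2, h a List.mem_cons_self⟩⟩ :: L, by rw [List.map_cons, hL]⟩

theorem th_prod (h0 : M s t = 0) (L : List (Σ τ : Bool, (AA M s t τ : Subgroup (Art M)))) :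
    th M hst h0 ((L.map (fun z => (z.2 : Art M))).prod) =
      (L.map (fun z => Monoid.PushoutI.of (φ := ph M s t) z.1 z.2)).prod := by
  induction L with
  | nil => simp
  | cons a L ih =>
    rw [List.map_cons, List.prod_cons, map_mul, ih, List.map_cons, List.prod_cons,
      th_mem M hst h0 a.1 _ a.2.2]

end red

/-- **Module RED.** -/
theorem red.{u} : S_RED.{u} := by
  intro B _ _ M s t hst h0 l hl hmem hch hin
  obtain ⟨L, hL⟩ := exists_list M l (fun x hx => (hmem x hx).1)
  have hmemL : ∀ z ∈ L, (z.2 : Art M) ∉ P M {s, t}ᶜ := by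
    intro z hz
    have : (z.1, (z.2 : Art M)) ∈ l := by
      rw [← hL]
      exact List.mem_map_of_mem hz
    exact (hmem _ this).2
  have hchL : L.IsChain (fun x y => x.1 ≠ y.1) := by
    rw [← hL, List.isChain_map] at hch
    exact hch
  have hne : ∀ z ∈ L, z.2 ≠ 1 := by
    intro z hz h1
    apply hmemL z hz
    rw [h1]
    exact one_mem _
  let w : Monoid.CoprodI.Word (fun τ : Bool => (AA M s t τ : Subgroup (Art M))) :=
    ⟨L, fun z hz => hne z hz, hchL⟩
  have hw : Monoid.PushoutI.Reduced (ph M s t) w := by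
    intro z hz
    rintro ⟨c, hc⟩
    apply hmemL z hz
    rw [← hc]
    exact c.2
  have hprod : (l.map Prod.snd).prod = (L.map (fun z => (z.2 : Art M))).prod := by
    rw [← hL, List.map_map]
    rfl
  have h1 : Monoid.PushoutI.ofCoprodI (φ := ph M s t) w.prod =
      (L.map (fun z => Monoid.PushoutI.of (φ := ph M s t) z.1 z.2)).prod := by
    show Monoid.PushoutI.ofCoprodI (φ := ph M s t)
      ((L.map (fun z => Monoid.CoprodI.of z.2)).prod) = _
    rw [map_list_prod, List.map_map]
    congr 1
  have h2 : Monoid.PushoutI.ofCoprodI (φ := ph M s t) w.prod ∈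
      (Monoid.PushoutI.base (ph M s t)).range := by
    refine ⟨⟨_, hin⟩, ?_⟩
    rw [h1, ← th_prod M hst h0 L, ← Monoid.PushoutI.of_apply_eq_base (ph M s t) true,
      ← hprod]
    exact (th_mem M hst h0 true _ (C_le M true hin)).symm
  have h3 := hw.eq_empty_of_mem_range (fun τ => ph_inj M τ) h2
  apply hl
  have h4 : L = [] := congrArg Monoid.CoprodI.Word.toList h3
  rw [← hL, h4]
  rfl

end Pool.Agent.L0h68.AL
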