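import Pool.Agent.L0h29.AL.ArtDefs4
import Pool.Agent.L0h29.AL.CEX

/-!
# Module CPT of project AL: the total bound is computable
-/

set_option autoImplicit false

namespace Pool.Agent.L0h68.AL

open Pool.Agent.K7.H20.AW Pool.Agent.L0h29.AL

theorem pr_ga : Primrec₂ ga := by
  have h1 : Primrec fun x : ℕ × ℕ => 2 ^ (x.1 + 1) :=
    pr_pow.comp (Primrec.const 2) (Primrec.succ.comp Primrec.fst)
  have h2 : Primrec fun x : ℕ × ℕ => x.2 + 2 := Primrec.nat_add.comp Primrec.snd (Primrec.const 2)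
  have h3 : Primrec fun x : ℕ × ℕ => x.1 + 2 := Primrec.nat_add.comp Primrec.fst (Primrec.const 2)
  exact pr_pow.comp (Primrec.nat_mul.comp h1 h2) h3

theorem pr_dq : Primrec dq := by
  have h1 : Primrec fun N : ℕ => (N + 1) ^ 2 := pr_pow.comp Primrec.succ (Primrec.const 2)
  exact Primrec.nat_mul.comp h1 (pr_bd.comp Primrec.id Primrec.id)

theorem pr_n1 : Primrec n1 := by
  have hp : Primrec ps := cps
  have h2 : Primrec (fun N : ℕ => 2 * ps N + 2 * N) :=
    Primrec.nat_add.comp (Primrec.nat_mul.comp (Primrec.const 2) hp)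
      (Primrec.nat_mul.comp (Primrec.const 2) Primrec.id)
  exact Primrec.nat_add.comp Primrec.id (Primrec.nat_mul.comp hp h2)

/-- CPT -/
theorem cpt : S_CPT := by
  have hp : Primrec ps := cps
  have hg : Primrec fun N => ga (n1 N) (n1 N) := pr_ga.comp pr_n1 pr_n1
  have h1 : Primrec fun N => ga (n1 N) (n1 N) + 2 := Primrec.nat_add.comp hg (Primrec.const 2)
  have h2 : Primrec fun N => dq (ga (n1 N) (n1 N)) + 2 :=
    Primrec.nat_add.comp (pr_dq.comp hg) (Primrec.const 2)
  exact Primrec.nat_add.comp (Primrec.nat_mul.comp h1 h2) hp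

end Pool.Agent.L0h68.AL
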