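import Pool.Agent.L0h68.AL.Rac

/-!
# Module CUG of project AL: an algorithm for the truncated matrices gives an algorithm
-/

set_option autoImplicit false

namespace Pool.Agent.L0h68.AL

open Pool.Agent.K7.H20.AW Pool.Agent.L0h29.AL

/-! ## 1. values of words -/

section wv

variable {β γ G H : Type*} [Group G] [Group H]

/-- the value of a word -/
def wv (φ : β → G) (w : List (β × Bool)) : G :=
  (w.map fun p => if p.2 then φ p.1 else (φ p.1)⁻¹).prod

theorem wv_nil (φ : β → G) : wv φ [] = 1 := rfl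

theorem wv_cons (φ : β → G) (p : β × Bool) (w : List (β × Bool)) :
    wv φ (p :: w) = (if p.2 then φ p.1 else (φ p.1)⁻¹) * wv φ w := by simp [wv]

theorem wv_append (φ : β → G) (v w : List (β × Bool)) : wv φ (v ++ w) = wv φ v * wv φ w := by
  simp [wv]

theorem wv_inw (φ : β → G) (w : List (β × Bool)) : wv φ (inw w) = (wv φ w)⁻¹ := by
  induction w with
  | nil => simp [inw, wv]
  | cons p w ih =>
    have h : inw (p :: w) = inw w ++ [(p.1, !p.2)] := by simp [inw]
    rw [h, wv_append, ih, wv_cons, wv_cons, wv_nil, mul_inv_rev, mul_one]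
    congr 1
    obtain ⟨a, b⟩ := p
    cases b <;> simp

theorem wv_hom (φ : β → G) (F : G →* H) (w : List (β × Bool)) :
    F (wv φ w) = wv (fun b => F (φ b)) w := by
  induction w with
  | nil => simp [wv]
  | cons p w ih =>
    rw [wv_cons, wv_cons, map_mul, ih]
    congr 1
    split_ifs
    · rfl
    · rw [map_inv]

theorem wv_aw (φ : β → G) (m : ℕ) : ∀ i j, wv φ (aw m i j) = altProd m (φ i) (φ j) := by
  induction m with
  | zero => intro i j; rfl
  | succ m ih => intro i j; rw [aw, wv_cons, ih, altProd]; simp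

theorem wv_rw (φ : β → G) (m : ℕ) (i j : β) (b : Bool) : wv φ (rw' m i j b) =
    if b then altProd m (φ i) (φ j) * (altProd m (φ j) (φ i))⁻¹ else
      altProd m (φ j) (φ i) * (altProd m (φ i) (φ j))⁻¹ := by
  rw [rw']
  split_ifs <;> rw [wv_append, wv_inw, wv_aw, wv_aw]

theorem exw_cons (lab : β → β → ℕ) (p : List (β × Bool) × β × β × Bool)
    (c : List (List (β × Bool) × β × β × Bool)) : exw lab (p :: c) =
    (p.1 ++ rw' (lab p.2.1 p.2.2.1) p.2.1 p.2.2.1 p.2.2.2 ++ inw p.1) ++ exw lab c := by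
  simp [exw]

theorem wv_exw_cons (φ : β → G) (lab : β → β → ℕ) (p : List (β × Bool) × β × β × Bool)
    (c : List (List (β × Bool) × β × β × Bool)) : wv φ (exw lab (p :: c)) =
    wv φ p.1 * wv φ (rw' (lab p.2.1 p.2.2.1) p.2.1 p.2.2.1 p.2.2.2) * (wv φ p.1)⁻¹ *
      wv φ (exw lab c) := by
  rw [exw_cons, wv_append, wv_append, wv_append, wv_inw]

end wv

/-! ## 2. from `ℕ` to `Fin n` and back -/

section fin

variable {G : Type*} [Group G]

/-- extension by `1` -/
def ex {n : ℕ} (ψ : Fin n → G) (i : ℕ) : G := if h : i < n then ψ ⟨i, h⟩ else 1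

theorem ex_val {n : ℕ} (ψ : Fin n → G) (i : Fin n) : ex ψ i.val = ψ i := by
  rw [ex, dif_pos i.2]

theorem ex_pos {n : ℕ} (ψ : Fin n → G) {i : ℕ} (h : i < n) : ex ψ i = ψ ⟨i, h⟩ := by
  rw [ex, dif_pos h]

theorem ex_neg {n : ℕ} (ψ : Fin n → G) {i : ℕ} (h : ¬ i < n) : ex ψ i = 1 := by
  rw [ex, dif_neg h]

/-- forget the letters `≥ n` -/
def fl (n : ℕ) : List (ℕ × Bool) → List (Fin n × Bool)
  | [] => []
  | p :: w => if h : p.1 < n then (⟨p.1, h⟩, p.2) :: fl n w else fl n w

theorem fl_length (n : ℕ) (w : List (ℕ × Bool)) : (fl n w).length ≤ w.length := by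
  induction w with
  | nil => exact le_rfl
  | cons p w ih =>
    rw [fl]
    split_ifs
    · simp only [List.length_cons]; omega
    · simp only [List.length_cons]; omega

theorem wv_fl {n : ℕ} (ψ : Fin n → G) (w : List (ℕ × Bool)) : wv ψ (fl n w) = wv (ex ψ) w := by
  induction w with
  | nil => rfl
  | cons p w ih =>
    rw [fl, wv_cons]
    split_ifs with h h1 h1
    · rw [wv_cons, ih, ex_pos ψ h]
      simp [h1]
    · rw [wv_cons, ih, ex_pos ψ h]
      simp [h1]
    · rw [ih, ex_neg ψ h, one_mul]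
    · rw [ih, ex_neg ψ h, inv_one, one_mul]

/-- the letter as a code -/
def up {n : ℕ} (p : Fin n × Bool) : ℕ × Bool := (p.1.val, p.2)

theorem wv_up {n : ℕ} (ψ : Fin n → G) (w : List (Fin n × Bool)) :
    wv (ex ψ) (w.map up) = wv ψ w := by
  induction w with
  | nil => rfl
  | cons p w ih =>
    rw [List.map_cons, wv_cons, wv_cons, ih, up, ex_val]

/-- the labels -/
def labN (n : ℕ) (L : List (List ℕ)) (i j : ℕ) : ℕ :=
  if i < n ∧ j < n then (if i = j then 1 else if lb L i j = 1 then 0 else lb L i j) else 0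

theorem labN_eq {n : ℕ} {L : List (List ℕ)} (i j : Fin n) : labN n L i j = mat n L i j := by
  rw [labN, if_pos ⟨i.2, j.2⟩, mat_apply]
  by_cases h : i = j
  · rw [if_pos h, if_pos (by rw [h])]
  · rw [if_neg h, if_neg fun e => h (Fin.ext e)]

/-- forget the relators outside `n` -/
def flc (n : ℕ) : List (List (ℕ × Bool) × ℕ × ℕ × Bool) →
    List (List (Fin n × Bool) × Fin n × Fin n × Bool)
  | [] => []
  | p :: c => if h : p.2.1 < n ∧ p.2.2.1 < n then
      (fl n p.1, ⟨p.2.1, h.1⟩, ⟨p.2.2.1, h.2⟩, p.2.2.2) :: flc n c else flc n c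

theorem flc_length (n : ℕ) (c : List (List (ℕ × Bool) × ℕ × ℕ × Bool)) :
    (flc n c).length ≤ c.length := by
  induction c with
  | nil => exact le_rfl
  | cons p w ih =>
    rw [flc]
    split_ifs
    · simp only [List.length_cons]; omega
    · simp only [List.length_cons]; omega

theorem flc_mem (n : ℕ) {c : List (List (ℕ × Bool) × ℕ × ℕ × Bool)} {K : ℕ}
    (h : ∀ p ∈ c, p.1.length ≤ K) : ∀ p ∈ flc n c, p.1.length ≤ K := by
  induction c with
  | nil => intro p hp; simp [flc] at hp
  | cons q c ih =>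
    have ih' := ih fun p hp => h p (List.mem_cons_of_mem _ hp)
    have h1 := h q (by simp)
    rw [flc]
    split_ifs with h2
    · intro p hp
      rcases List.mem_cons.1 hp with rfl | hp
      · exact (fl_length n q.1).trans h1
      · exact ih' p hp
    · exact ih'

theorem wv_flc {n : ℕ} {L : List (List ℕ)} (ψ : Fin n → G)
    (c : List (List (ℕ × Bool) × ℕ × ℕ × Bool)) :
    wv ψ (exw (fun i j => mat n L i j) (flc n c)) = wv (ex ψ) (exw (labN n L) c) := by
  induction c with
  | nil => rfl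
  | cons p c ih =>
    rw [flc, wv_exw_cons]
    split_ifs with h
    · rw [wv_exw_cons, ih, wv_fl, wv_rw, wv_rw, ex_pos ψ h.1, ex_pos ψ h.2,
        ← labN_eq (L := L) (⟨p.2.1, h.1⟩ : Fin n) ⟨p.2.2.1, h.2⟩]
    · have h0 : labN n L p.2.1 p.2.2.1 = 0 := by rw [labN, if_neg h]
      rw [ih, wv_rw, h0]
      simp [altProd]

/-- codes of relators -/
def upc {n : ℕ} (c : List (List (Fin n × Bool) × Fin n × Fin n × Bool)) :
    List (List (ℕ × Bool) × ℕ × ℕ × Bool) :=
  c.map fun p => (p.1.map up, p.2.1.val, p.2.2.1.val, p.2.2.2)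

theorem wv_upc {n : ℕ} {L : List (List ℕ)} (ψ : Fin n → G)
    (c : List (List (Fin n × Bool) × Fin n × Fin n × Bool)) :
    wv (ex ψ) (exw (labN n L) (upc c)) = wv ψ (exw (fun i j => mat n L i j) c) := by
  induction c with
  | nil => rfl
  | cons p c ih =>
    have h : upc (p :: c) = (p.1.map up, p.2.1.val, p.2.2.1.val, p.2.2.2) :: upc c := rfl
    rw [h, wv_exw_cons, wv_exw_cons, ih, wv_up, wv_rw, wv_rw, ex_val, ex_val, labN_eq]

end fin

/-! ## 3. matrices -/

theorem lb_trL (L : List (List ℕ)) (i j : ℕ) :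
    lb (trL L) i j = if 100 ≤ lb L i j then 0 else lb L i j := by
  have h1 : (trL L).getD (min i j) [] = (L.getD (min i j) []).map
      fun a => if 100 ≤ a then 0 else a :=
    List.getD_map L [] (fun row : List ℕ => row.map fun a => if 100 ≤ a then 0 else a)
  rw [lb, h1, lb]
  exact List.getD_map _ 0 (fun a : ℕ => if 100 ≤ a then 0 else a)

theorem mat_tr (n : ℕ) (L : List (List ℕ)) : mat n (trL L) = tr (mat n L) := by
  ext i j
  show mat n (trL L) i j = (if i = j then 1 else if 100 ≤ mat n L i j then 0 else mat n L i j)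
  rw [mat_apply, mat_apply, lb_trL]
  by_cases h : i = j
  · rw [if_pos h, if_pos h]
  · rw [if_neg h, if_neg h, if_neg h]
    split_ifs <;> omega

theorem lb_le (L : List (List ℕ)) (i j : ℕ) : lb L i j ≤ L.flatten.sum := by
  have h : lb L i j = 0 ∨ lb L i j ∈ L.flatten := by
    rw [lb]
    by_cases h1 : min i j < L.length
    · rw [List.getD_eq_getElem _ _ h1]
      by_cases h2 : max i j < (L[min i j]).length
      · rw [List.getD_eq_getElem _ _ h2]
        right
        exact List.mem_flatten.2 ⟨L[min i j], List.getElem_mem h1, List.getElem_mem h2⟩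
      · left
        rw [List.getD_eq_default _ _ (by omega)]
    · left
      rw [List.getD_eq_default _ _ (show L.length ≤ min i j by omega)]
      simp
  rcases h with h | h
  · rw [h]; exact Nat.zero_le _
  · exact List.single_le_sum (fun _ _ => Nat.zero_le _) _ h

theorem mat_le (n : ℕ) (L : List (List ℕ)) (i j : Fin n) : mat n L i j ≤ n + L.flatten.sum := by
  rw [mat_apply]
  have h := lb_le L i j
  have h1 := i.2
  split_ifs <;> omega

theorem ps_ge (N : ℕ) : N ≤ ps N :=
  Function.id_le_iterate_of_id_le (f := fun x => x + ph x * (2 * ph x + 2 * x))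
    (fun _ => Nat.le_add_right _ _) (N * N) N

/-! ## 4. the equivalence -/

theorem nval_iff {n : ℕ} (M : CoxeterMatrix (Fin n)) (w : List (ℕ × Bool)) :
    nval M w = 1 ↔ wv (ex (g M)) w = 1 := by
  have h0 : nval M w = wv (ex fun i => (PresentedGroup.of i : ArtinGroup M)) w := by
    unfold nval wv
    congr 2
    funext p
    by_cases h : p.1 < n
    · rw [dif_pos h, ex_pos _ h]
    · rw [dif_neg h, ex_neg _ h, inv_one, ite_self]
  have h1 : toArt M (nval M w) = wv (ex (g M)) w := by
    rw [h0, wv_hom]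
    congr 1
    funext i
    by_cases h : i < n
    · rw [ex_pos _ h, ex_pos _ h]
      exact PresentedGroup.toGroup.of _
    · rw [ex_neg _ h, ex_neg _ h, map_one]
  have h2 : ofArt M (wv (ex (g M)) w) = nval M w := by
    rw [h0, wv_hom]
    congr 1
    funext i
    by_cases h : i < n
    · rw [ex_pos _ h, ex_pos _ h]
      exact Pool.Agent.K7.H87.FJ6.Sh.lift_gen _ _ _ _
    · rw [ex_neg _ h, ex_neg _ h, map_one]
  constructor
  · intro h
    rw [← h1, h, map_one]
  · intro h
    rw [← h2, h, map_one]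

theorem key (hB : S_BIG) (n : ℕ) (L : List (List ℕ)) (w : List (ℕ × Bool)) (N : ℕ) (hn : n ≤ N)
    (hw : w.length ≤ N) (hM : ∀ i j, mat n L i j ≤ N) :
    nval (mat n L) w = 1 ↔ ∃ c : List (List (ℕ × Bool) × ℕ × ℕ × Bool), (c.length ≤ ps N ∧
      ∀ p ∈ c, (p.1.length ≤ ps N ∧ ∀ a ∈ p.1, a.1 ≤ ps N) ∧ p.2.1 ≤ ps N ∧ p.2.2.1 ≤ ps N) ∧
      nval (mat n (trL L)) (w ++ exw (labN n L) c) = 1 := by
  have hps := ps_ge N
  have hlt : ∀ i : Fin n, i.val ≤ ps N := fun i => by have := i.2; omega
  rw [nval_iff, ← wv_fl]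
  have h1 := hB n (mat n L) (fl n w) N hn ((fl_length n w).trans hw) hM
  change wv (g (mat n L)) (fl n w) = 1 ↔ _ at h1
  rw [h1, mat_tr]
  constructor
  · rintro ⟨c, hc1, hc2, hc3⟩
    refine ⟨upc c, ⟨?_, ?_⟩, ?_⟩
    · rw [upc, List.length_map]; exact hc1
    · intro p hp
      obtain ⟨q, hq, rfl⟩ := List.mem_map.1 hp
      refine ⟨⟨?_, ?_⟩, hlt _, hlt _⟩
      · rw [List.length_map]; exact hc2 q hq
      · intro a ha
        obtain ⟨b, _, rfl⟩ := List.mem_map.1 ha
        exact hlt _
    · rw [nval_iff, wv_append, wv_upc, ← wv_fl, ← wv_append]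
      exact hc3
  · rintro ⟨c, ⟨hc1, hc2⟩, hc3⟩
    refine ⟨flc n c, (flc_length n c).trans hc1, flc_mem n fun p hp => (hc2 p hp).1.1, ?_⟩
    rw [nval_iff, wv_append, ← wv_flc, ← wv_fl, ← wv_append] at hc3
    exact hc3

/-! ## 5. computability -/

section prim

variable {α β γ : Type*} [Primcodable α] [Primcodable β] [Primcodable γ]

theorem prim_product {e : α → List β} {e' : α → List γ} (h : Primrec e) (h' : Primrec e') :
    Primrec fun a => (e a).product (e' a) := by
  have h1 : Primrec₂ fun (a : α) (b : β) => (e' a).map (Prod.mk b) :=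
    Primrec.list_map (h'.comp Primrec.fst)
      (Primrec.pair (Primrec.snd.comp Primrec.fst) Primrec.snd)
  exact (Primrec.list_flatMap h h1).of_eq fun a => rfl

theorem prim_trL : Primrec trL := by
  have h1 : Primrec₂ fun (_ : List (List ℕ) × List ℕ) (a : ℕ) => if 100 ≤ a then 0 else a :=
    Primrec.ite (Primrec.nat_le.comp (Primrec.const 100) Primrec.snd) (Primrec.const 0)
      Primrec.snd
  have h2 : Primrec₂ fun (_ : List (List ℕ)) (row : List ℕ) =>
      row.map fun a => if 100 ≤ a then 0 else a := Primrec.list_map Primrec.snd h1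
  exact Primrec.list_map Primrec.id h2

theorem prim_labN {f : α → List (List ℕ)} {n i j : α → ℕ} (hn : Primrec n) (hf : Primrec f)
    (hi : Primrec i) (hj : Primrec j) : Primrec fun a => labN (n a) (f a) (i a) (j a) :=
  Primrec.ite ((Primrec.nat_lt.comp hi hn).and (Primrec.nat_lt.comp hj hn))
    (Primrec.ite (Primrec.eq.comp hi hj) (Primrec.const 1)
      (Primrec.ite (Primrec.eq.comp (prim_lb hf hi hj) (Primrec.const 1)) (Primrec.const 0)
        (prim_lb hf hi hj))) (Primrec.const 0)

theorem aw_eq {β : Type*} (m : ℕ) : ∀ i j : β, aw m i j =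
    (List.range m).map fun k => (if k % 2 = 0 then i else j, true) := by
  induction m with
  | zero => intro i j; rfl
  | succ m ih =>
    intro i j
    rw [aw, ih, List.range_succ_eq_map, List.map_cons, List.map_map]
    congr 1
    apply List.map_congr_left
    intro k _
    simp only [Function.comp]
    by_cases h : k % 2 = 0
    · rw [if_pos h, if_neg (by omega)]
    · rw [if_neg h, if_pos (by omega)]

theorem prim_aw {m i j : α → ℕ} (hm : Primrec m) (hi : Primrec i) (hj : Primrec j) :
    Primrec fun a => aw (m a) (i a) (j a) := by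
  have h1 : Primrec₂ fun (a : α) (k : ℕ) => (if k % 2 = 0 then i a else j a, true) :=
    Primrec.pair (Primrec.ite (Primrec.eq.comp (Primrec.nat_mod.comp Primrec.snd
      (Primrec.const 2)) (Primrec.const 0)) (hi.comp Primrec.fst) (hj.comp Primrec.fst))
      (Primrec.const true)
  exact (Primrec.list_map (Primrec.list_range.comp hm) h1).of_eq fun a => (aw_eq _ _ _).symm

theorem prim_inw {f : α → List (β × Bool)} (hf : Primrec f) : Primrec fun a => inw (f a) := by
  have h1 : Primrec₂ fun (_ : α) (p : β × Bool) => (p.1, !p.2) :=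
    Primrec.pair (Primrec.fst.comp Primrec.snd)
      (Primrec.not.comp (Primrec.snd.comp Primrec.snd))
  exact Primrec.list_reverse.comp (Primrec.list_map hf h1)

theorem prim_rw {m i j : α → ℕ} {b : α → Bool} (hm : Primrec m) (hi : Primrec i) (hj : Primrec j)
    (hb : Primrec b) : Primrec fun a => rw' (m a) (i a) (j a) (b a) :=
  Primrec.ite (Primrec.eq.comp hb (Primrec.const true))
    (Primrec.list_append.comp (prim_aw hm hi hj) (prim_inw (prim_aw hm hj hi)))
    (Primrec.list_append.comp (prim_aw hm hj hi) (prim_inw (prim_aw hm hi hj)))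

theorem prim_exw {f : α → List (List ℕ)} {n : α → ℕ}
    {c : α → List (List (ℕ × Bool) × ℕ × ℕ × Bool)} (hn : Primrec n) (hf : Primrec f)
    (hc : Primrec c) : Primrec fun a => exw (labN (n a) (f a)) (c a) := by
  have hp : Primrec fun z : α × (List (ℕ × Bool) × ℕ × ℕ × Bool) => z.2.1 :=
    Primrec.fst.comp Primrec.snd
  have hi : Primrec fun z : α × (List (ℕ × Bool) × ℕ × ℕ × Bool) => z.2.2.1 :=
    Primrec.fst.comp (Primrec.snd.comp Primrec.snd)
  have hj : Primrec fun z : α × (List (ℕ × Bool) × ℕ × ℕ × Bool) => z.2.2.2.1 :=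
    Primrec.fst.comp (Primrec.snd.comp (Primrec.snd.comp Primrec.snd))
  have hb : Primrec fun z : α × (List (ℕ × Bool) × ℕ × ℕ × Bool) => z.2.2.2.2 :=
    Primrec.snd.comp (Primrec.snd.comp (Primrec.snd.comp Primrec.snd))
  have h1 : Primrec₂ fun (a : α) (p : List (ℕ × Bool) × ℕ × ℕ × Bool) =>
      p.1 ++ rw' (labN (n a) (f a) p.2.1 p.2.2.1) p.2.1 p.2.2.1 p.2.2.2 ++ inw p.1 :=
    Primrec.list_append.comp (Primrec.list_append.comp hp
      (prim_rw (prim_labN (hn.comp Primrec.fst) (hf.comp Primrec.fst) hi hj) hi hj hb))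
      (prim_inw hp)
  exact Primrec.list_flatMap hc h1

/-- the bound for a code -/
def nb (x : ℕ × List (List ℕ) × List (ℕ × Bool)) : ℕ :=
  x.1 + x.2.1.flatten.sum + x.2.2.length

theorem prim_nb : Primrec nb := by
  have hs : Primrec fun l : List ℕ => l.sum := by
    refine (Primrec.list_foldr (f := fun l : List ℕ => l) (g := fun _ => 0)
      (h := fun _ p => p.1 + p.2) Primrec.id (Primrec.const 0)
      (Primrec.nat_add.comp (Primrec.fst.comp Primrec.snd)
        (Primrec.snd.comp Primrec.snd))).of_eq fun l => ?_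
    rfl
  exact Primrec.nat_add.comp (Primrec.nat_add.comp Primrec.fst
    (hs.comp (Primrec.list_flatten.comp (Primrec.fst.comp Primrec.snd))))
    (Primrec.list_length.comp (Primrec.snd.comp Primrec.snd))

end prim

/-! ## 6. the module -/

/-- CUG -/
theorem cug (hB : S_BIG) (hX : S_CEX) (hS : S_CLS) (hP : S_CPS) : S_CUG := by
  intro f0 hf0
  have hr : Primrec fun K : ℕ => List.range (K + 1) := Primrec.list_range.comp Primrec.succ
  obtain ⟨E1, hE1, hE1'⟩ := hS (ℕ × Bool) (fun K => (List.range (K + 1)).product [true, false])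
    (prim_product hr (Primrec.const _))
  obtain ⟨E2, hE2, hE2'⟩ := hS (List (ℕ × Bool) × ℕ × ℕ × Bool)
    (fun K => (E1 K).product ((List.range (K + 1)).product
      ((List.range (K + 1)).product [true, false])))
    (prim_product hE1 (prim_product hr (prim_product hr (Primrec.const _))))
  have hmem : ∀ K c, c ∈ E2 K ↔ (c.length ≤ K ∧
      ∀ p ∈ c, (p.1.length ≤ K ∧ ∀ a ∈ p.1, a.1 ≤ K) ∧ p.2.1 ≤ K ∧ p.2.2.1 ≤ K) := by
    intro K c
    rw [hE2']
    refine and_congr Iff.rfl (forall₂_congr fun p _ => ?_)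
    obtain ⟨u, i, j, b⟩ := p
    rw [List.pair_mem_product, List.pair_mem_product, List.pair_mem_product, hE1',
      List.mem_range, List.mem_range]
    have h1 : b ∈ [true, false] := by cases b <;> simp
    have h2 : (∀ a ∈ u, a ∈ (List.range (K + 1)).product [true, false]) ↔
        ∀ a ∈ u, a.1 ≤ K := by
      refine forall₂_congr fun a _ => ?_
      obtain ⟨a, b'⟩ := a
      rw [List.pair_mem_product, List.mem_range]
      have h1 : b' ∈ [true, false] := by cases b' <;> simp
      simp only [h1, and_true]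
      omega
    rw [h2]
    simp only [h1, and_true, Nat.lt_succ_iff]
  refine ⟨fun x => (E2 (ps (nb x))).any fun c =>
    f0 (x.1, trL x.2.1, x.2.2 ++ exw (labN x.1 x.2.1) c), ?_, ?_⟩
  · refine hX _ _ (fun x : ℕ × List (List ℕ) × List (ℕ × Bool) => E2 (ps (nb x)))
      (fun x c => f0 (x.1, trL x.2.1, x.2.2 ++ exw (labN x.1 x.2.1) c)) ?_ ?_
    · exact (hE2.comp (hP.comp prim_nb)).to_comp
    · have h1 : Primrec fun z : (ℕ × List (List ℕ) × List (ℕ × Bool)) ×
          List (List (ℕ × Bool) × ℕ × ℕ × Bool) =>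
          (z.1.1, trL z.1.2.1, z.1.2.2 ++ exw (labN z.1.1 z.1.2.1) z.2) :=
        Primrec.pair (Primrec.fst.comp Primrec.fst)
          (Primrec.pair (prim_trL.comp (Primrec.fst.comp (Primrec.snd.comp Primrec.fst)))
            (Primrec.list_append.comp (Primrec.snd.comp (Primrec.snd.comp Primrec.fst))
              (prim_exw (Primrec.fst.comp Primrec.fst)
                (Primrec.fst.comp (Primrec.snd.comp Primrec.fst)) Primrec.snd)))
      exact hf0.comp h1.to_comp
  · intro n L h w
    have hk := key hB n L w (nb (n, L, w)) (by simp only [nb]; omega) (by simp only [nb]; omega)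
      (fun i j => (mat_le n L i j).trans (by simp only [nb]; omega))
    show ((E2 (ps (nb (n, L, w)))).any fun c => f0 (n, trL L, w ++ exw (labN n L) c)) = true ↔
      nval (mat n L) w = 1
    rw [hk, List.any_eq_true]
    refine exists_congr fun c => ?_
    rw [hmem, h]
    rfl

end Pool.Agent.L0h68.AL
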