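import Pool.Agent.L0h29.AL.ArtDefs7
import Pool.Agent.L0h68.AL.Cug

/-!
# Module FCU of project AL: one algorithm for all matrices whose small cliques are spherical
-/

set_option autoImplicit false

namespace Pool.Agent.L0h68.AL

open Pool.Agent.K7.H20.AW Pool.Agent.L0h29.AL

/-- the letters `< n` -/
def fw (n : ℕ) (w : List (ℕ × Bool)) : List (ℕ × Bool) :=
  w.flatMap fun p => if p.1 < n then [p] else []

theorem fw_eq (n : ℕ) (w : List (ℕ × Bool)) :
    fw n w = (fl n w).map fun p => (p.1.val, p.2) := by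
  induction w with
  | nil => rfl
  | cons p w ih =>
    have h0 : fw n (p :: w) = (if p.1 < n then [p] else []) ++ fw n w := by
      simp [fw]
    rw [h0, ih, fl]
    split_ifs with h
    · rfl
    · rfl

theorem prim_fw : Primrec₂ fw := by
  have h1 : Primrec₂ fun (x : ℕ × List (ℕ × Bool)) (p : ℕ × Bool) =>
      if p.1 < x.1 then [p] else [] :=
    Primrec.ite (Primrec.nat_lt.comp (Primrec.fst.comp Primrec.snd)
      (Primrec.fst.comp Primrec.fst))
      (Primrec.list_cons.comp Primrec.snd (Primrec.const [])) (Primrec.const [])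
  exact Primrec.list_flatMap Primrec.snd h1

/-- FCU -/
theorem fcu (hB : S_FCB) (hG : S_GDX) (hD : S_GDC) (hT : S_TTC) (hA : S_ACO)
    (hR : S_ARE.{0}) : S_FCU := by
  obtain ⟨q, hq, hq'⟩ := hD
  obtain ⟨a, ha, ha'⟩ := hA
  have hQ : Computable₂ fun (x : ℕ × List (List ℕ) × List (ℕ × Bool)) (D : ℕ) =>
      q (x.1, x.2.1, D) :=
    hq.comp (Computable.pair (Computable.fst.comp Computable.fst)
      (Computable.pair (Computable.fst.comp (Computable.snd.comp Computable.fst))
        Computable.snd))
  have hF : Computable₂ fun (x : ℕ × List (List ℕ) × List (ℕ × Bool)) (D : ℕ) =>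
      a ((x.1, x.2.1), fw x.1 x.2.2, tt D (nb x)) :=
    ha.comp (Computable.pair (Computable.pair (Computable.fst.comp Computable.fst)
      (Computable.fst.comp (Computable.snd.comp Computable.fst)))
      (Computable.pair (prim_fw.to_comp.comp (Computable.fst.comp Computable.fst)
        (Computable.snd.comp (Computable.snd.comp Computable.fst)))
        (hT.to_comp.comp Computable.snd (prim_nb.to_comp.comp Computable.fst))))
  refine ⟨fun x => (Nat.rfind fun D => Part.some (q (x.1, x.2.1, D))).map
    fun D => a ((x.1, x.2.1), fw x.1 x.2.2, tt D (nb x)),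
    (Partrec.rfind hQ.partrec₂).map hF, fun n L hL w => ?_⟩
  obtain ⟨D0, hD0⟩ := hG n (mat n L) hL
  have hdom : (Nat.rfind fun D => Part.some (q (n, L, D))).Dom :=
    Nat.rfind_dom.2 ⟨D0, Part.mem_some_iff.2 ((hq' n L D0).2 hD0).symm, fun _ => trivial⟩
  obtain ⟨D, hD⟩ := Part.dom_iff_mem.1 hdom
  have hD1 : q (n, L, D) = true := (Part.mem_some_iff.1 (Nat.rfind_spec hD)).symm
  refine ⟨a ((n, L), fw n w, tt D (nb (n, L, w))), Part.mem_map _ hD, ?_⟩
  rw [fw_eq, ha']
  have h1 : Triv (n, L, w) ↔ lval (mat n L) (fl n w) = 1 := by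
    show nval (mat n L) w = 1 ↔ wv (g (mat n L)) (fl n w) = 1
    rw [nval_iff, wv_fl]
  rw [h1]
  constructor
  · exact (hR (Fin n) (mat n L)).1 _ _
  · intro h
    have hnb : nb (n, L, w) = n + L.flatten.sum + w.length := rfl
    have hl := fl_length n w
    refine hB n (mat n L) hL D ((hq' n L D).1 hD1) _ _ (by omega) (by omega) (fun i j => ?_) h
    have := mat_le n L i j
    omega

end Pool.Agent.L0h68.AL
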