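import Pool.Agent.L0h29.AL.ArtDefs7
import Pool.Agent.L0h68.AL.Cug

/-!
# Module GDC of project AL: Garside data are computable
-/

set_option autoImplicit false

namespace Pool.Agent.L0h68.AL

open Pool.Agent.K7.H20.AW Pool.Agent.L0h29.AL

section comp

variable {α β γ : Type} [Primcodable α] [Primcodable β] [Primcodable γ]

theorem c_any (hX : S_CEX) {e : α → List β} {Q : α → β → Bool} (he : Computable e)
    (hQ : Computable₂ Q) : Computable fun a => (e a).any (Q a) := hX α β e Q he hQ

theorem c_not {f : α → Bool} (hf : Computable f) : Computable fun a => !(f a) :=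
  Primrec.not.to_comp.comp hf

theorem c_and {f g : α → Bool} (hf : Computable f) (hg : Computable g) :
    Computable fun a => f a && g a := (Primrec₂.to_comp Primrec.and).comp hf hg

theorem c_or {f g : α → Bool} (hf : Computable f) (hg : Computable g) :
    Computable fun a => f a || g a := (Primrec₂.to_comp Primrec.or).comp hf hg

theorem c_all (hX : S_CEX) {e : α → List β} {Q : α → β → Bool} (he : Computable e)
    (hQ : Computable₂ Q) : Computable fun a => (e a).all (Q a) := by
  refine (c_not (c_any hX he (Q := fun a b => !(Q a b)) (c_not hQ))).of_eq fun a => ?_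
  rw [List.all_eq_not_any_not]

theorem c_le {f g : α → ℕ} (hf : Computable f) (hg : Computable g) :
    Computable fun a => decide (f a ≤ g a) :=
  (Primrec₂.to_comp (Primrec.nat_le.decide)).comp hf hg

theorem c_lt {f g : α → ℕ} (hf : Computable f) (hg : Computable g) :
    Computable fun a => decide (f a < g a) :=
  (Primrec₂.to_comp (Primrec.nat_lt.decide)).comp hf hg

theorem c_eq {f g : α → ℕ} (hf : Computable f) (hg : Computable g) :
    Computable fun a => decide (f a = g a) :=
  (Primrec₂.to_comp (Primrec.eq.decide)).comp hf hg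

/-- all letters are in the list -/
def sb (l X : List ℕ) : Bool := l.all fun a => X.any fun x => decide (x = a)

theorem sb_iff {l X : List ℕ} : sb l X = true ↔ ∀ a ∈ l, a ∈ X := by
  simp [sb]

theorem c_sb (hX : S_CEX) {l X : α → List ℕ} (hl : Computable l) (hx : Computable X) :
    Computable fun a => sb (l a) (X a) := by
  refine c_all hX hl (Q := fun a b => (X a).any fun x => decide (x = b)) ?_
  refine c_any hX (e := fun z : α × ℕ => X z.1) (Q := fun z x => decide (x = z.2))
    (hx.comp Computable.fst) ?_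
  exact c_eq Computable.snd (Computable.snd.comp Computable.fst)

/-- all labels of the list are finite and `< 100` -/
def smb (n : ℕ) (L : List (List ℕ)) (X : List ℕ) : Bool :=
  X.all fun i => X.all fun j => decide (i = j) ||
    (!(decide (labN n L i j = 0)) && decide (labN n L i j < 100))

theorem c_smb (hX : S_CEX) {n : α → ℕ} {L : α → List (List ℕ)} {X : α → List ℕ}
    (hn : Computable n) (hL : Computable L) (hx : Computable X) :
    Computable fun a => smb (n a) (L a) (X a) := by
  have hlab : Computable fun z : (α × ℕ) × ℕ => labN (n z.1.1) (L z.1.1) z.1.2 z.2 := by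
    have h1 : Primrec fun z : (ℕ × List (List ℕ)) × ℕ × ℕ =>
        labN z.1.1 z.1.2 z.2.1 z.2.2 :=
      prim_labN (Primrec.fst.comp Primrec.fst) (Primrec.snd.comp Primrec.fst)
        (Primrec.fst.comp Primrec.snd) (Primrec.snd.comp Primrec.snd)
    exact h1.to_comp.comp (Computable.pair
      (Computable.pair (hn.comp (Computable.fst.comp Computable.fst))
        (hL.comp (Computable.fst.comp Computable.fst)))
      (Computable.pair (Computable.snd.comp Computable.fst) Computable.snd))
  refine c_all hX hx (Q := fun a i => (X a).all fun j => decide (i = j) ||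
    (!(decide (labN (n a) (L a) i j = 0)) && decide (labN (n a) (L a) i j < 100))) ?_
  refine c_all hX (e := fun z : α × ℕ => X z.1) (Q := fun z j => decide (z.2 = j) ||
    (!(decide (labN (n z.1) (L z.1) z.2 j = 0)) && decide (labN (n z.1) (L z.1) z.2 j < 100)))
    (hx.comp Computable.fst) ?_
  exact c_or (c_eq (Computable.snd.comp Computable.fst) Computable.snd)
    (c_and (c_not (c_eq hlab (Computable.const 0))) (c_lt hlab (Computable.const 100)))

theorem p_po {f : α → List β} (hf : Computable f) : Computable fun a => po (f a) := by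
  have h : Primrec fun l : List β => po l :=
    Primrec.list_map Primrec.id (Primrec.pair Primrec.snd (Primrec.const true))
  exact h.to_comp.comp hf

theorem p_inw {f : α → List (β × Bool)} (hf : Computable f) : Computable fun a => inw (f a) := by
  have h : Primrec fun l : List (β × Bool) => inw l := prim_inw Primrec.id
  exact h.to_comp.comp hf

theorem p_app {f g : α → List β} (hf : Computable f) (hg : Computable g) :
    Computable fun a => f a ++ g a := (Primrec₂.to_comp Primrec.list_append).comp hf hg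

theorem p_cons {f : α → β} {g : α → List β} (hf : Computable f) (hg : Computable g) :
    Computable fun a => f a :: g a := (Primrec₂.to_comp Primrec.list_cons).comp hf hg

theorem p_snoc {f : α → β} {g : α → List β} (hf : Computable f) (hg : Computable g) :
    Computable fun a => g a ++ [f a] := p_app hg (p_cons hf (Computable.const []))

theorem p_len {f : α → List β} (hf : Computable f) : Computable fun a => (f a).length :=
  Primrec.list_length.to_comp.comp hf

end comp

/-- the test of the areas -/
def tst (a : (ℕ × List (List ℕ)) × List (ℕ × Bool) × ℕ → Bool) (n : ℕ) (L : List (List ℕ))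
    (D : ℕ) (d : List ℕ) (b b' : ℕ) (v : List ℕ) : Bool :=
  (a ((n, L), po (b :: d) ++ inw (po (d ++ [b'])), D) &&
    a ((n, L), po (b' :: d) ++ inw (po (d ++ [b])), D)) &&
    a ((n, L), po d ++ inw (po (b :: v)), D)

/-- the test of the Garside data -/
def gdb (a : (ℕ × List (List ℕ)) × List (ℕ × Bool) × ℕ → Bool) (E : ℕ → List (List ℕ)) (n : ℕ)
    (L : List (List ℕ)) (D : ℕ) (X : List ℕ) : Bool :=
  (E (n + D)).any fun d => (decide (d.length ≤ D) && sb d X) && X.all fun b => X.any fun b' =>
    (E (n + D)).any fun v => (decide (v.length ≤ D) && sb v X) && tst a n L D d b b' v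

/-- the whole test -/
def qq (a : (ℕ × List (List ℕ)) × List (ℕ × Bool) × ℕ → Bool) (E : ℕ → List (List ℕ))
    (x : ℕ × List (List ℕ) × ℕ) : Bool :=
  (E (x.1 + x.2.2)).all fun X => !(sb X (List.range x.1) && smb x.1 x.2.1 X) ||
    gdb a E x.1 x.2.1 x.2.2 X

theorem c_qq (hX : S_CEX) {a : (ℕ × List (List ℕ)) × List (ℕ × Bool) × ℕ → Bool}
    (ha : Computable a) {E : ℕ → List (List ℕ)} (hE : Computable E) : Computable (qq a E) := by
  have hadd : ∀ {α : Type} [Primcodable α] {n D : α → ℕ}, Computable n → Computable D →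
      Computable fun z => E (n z + D z) := fun hn hD =>
    hE.comp ((Primrec₂.to_comp Primrec.nat_add).comp hn hD)
  have htst : Computable fun z : (((((ℕ × List (List ℕ) × ℕ) × List ℕ) × List ℕ) × ℕ) × ℕ) ×
      List ℕ => tst a z.1.1.1.1.1.1 z.1.1.1.1.1.2.1 z.1.1.1.1.1.2.2 z.1.1.1.2 z.1.1.2 z.1.2 z.2 := by
    have hx : Computable fun z : (((((ℕ × List (List ℕ) × ℕ) × List ℕ) × List ℕ) × ℕ) × ℕ) ×
      List ℕ => z.1.1.1.1.1 := Computable.fst.comp (Computable.fst.comp (Computable.fst.comp
        (Computable.fst.comp Computable.fst)))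
    have hn := Computable.fst.comp hx
    have hL := Computable.fst.comp (Computable.snd.comp hx)
    have hD := Computable.snd.comp (Computable.snd.comp hx)
    have hd : Computable fun z : (((((ℕ × List (List ℕ) × ℕ) × List ℕ) × List ℕ) × ℕ) × ℕ) ×
      List ℕ => z.1.1.1.2 := Computable.snd.comp (Computable.fst.comp (Computable.fst.comp
        Computable.fst))
    have hb : Computable fun z : (((((ℕ × List (List ℕ) × ℕ) × List ℕ) × List ℕ) × ℕ) × ℕ) ×
      List ℕ => z.1.1.2 := Computable.snd.comp (Computable.fst.comp Computable.fst)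
    have hb' : Computable fun z : (((((ℕ × List (List ℕ) × ℕ) × List ℕ) × List ℕ) × ℕ) × ℕ) ×
      List ℕ => z.1.2 := Computable.snd.comp Computable.fst
    have hv : Computable fun z : (((((ℕ × List (List ℕ) × ℕ) × List ℕ) × List ℕ) × ℕ) × ℕ) ×
      List ℕ => z.2 := Computable.snd
    have hnL := Computable.pair hn hL
    exact c_and (c_and
      (ha.comp (Computable.pair hnL (Computable.pair
        (p_app (p_po (p_cons hb hd)) (p_inw (p_po (p_snoc hb' hd)))) hD)))
      (ha.comp (Computable.pair hnL (Computable.pair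
        (p_app (p_po (p_cons hb' hd)) (p_inw (p_po (p_snoc hb hd)))) hD))))
      (ha.comp (Computable.pair hnL (Computable.pair
        (p_app (p_po hd) (p_inw (p_po (p_cons hb hv)))) hD)))
  have hgdb : Computable fun z : (ℕ × List (List ℕ) × ℕ) × List ℕ =>
      gdb a E z.1.1 z.1.2.1 z.1.2.2 z.2 := by
    refine c_any hX (e := fun z : (ℕ × List (List ℕ) × ℕ) × List ℕ => E (z.1.1 + z.1.2.2))
      (Q := fun z d => (decide (d.length ≤ z.1.2.2) && sb d z.2) && z.2.all fun b => z.2.any
        fun b' => (E (z.1.1 + z.1.2.2)).any fun v => (decide (v.length ≤ z.1.2.2) && sb v z.2) &&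
        tst a z.1.1 z.1.2.1 z.1.2.2 d b b' v) ?_ ?_
    · exact hadd (Computable.fst.comp Computable.fst)
        (Computable.snd.comp (Computable.snd.comp Computable.fst))
    · refine c_and (c_and (c_le (p_len Computable.snd) (Computable.snd.comp (Computable.snd.comp
        (Computable.fst.comp Computable.fst)))) (c_sb hX Computable.snd
        (Computable.snd.comp Computable.fst))) ?_
      refine c_all hX (e := fun z : ((ℕ × List (List ℕ) × ℕ) × List ℕ) × List ℕ => z.1.2)
        (Q := fun z b => z.1.2.any fun b' => (E (z.1.1.1 + z.1.1.2.2)).any fun v =>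
          (decide (v.length ≤ z.1.1.2.2) && sb v z.1.2) &&
          tst a z.1.1.1 z.1.1.2.1 z.1.1.2.2 z.2 b b' v)
        (Computable.snd.comp Computable.fst) ?_
      refine c_any hX (e := fun z : (((ℕ × List (List ℕ) × ℕ) × List ℕ) × List ℕ) × ℕ => z.1.1.2)
        (Q := fun z b' => (E (z.1.1.1.1 + z.1.1.1.2.2)).any fun v =>
          (decide (v.length ≤ z.1.1.1.2.2) && sb v z.1.1.2) &&
          tst a z.1.1.1.1 z.1.1.1.2.1 z.1.1.1.2.2 z.1.2 z.2 b' v)
        (Computable.snd.comp (Computable.fst.comp Computable.fst)) ?_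
      refine c_any hX (e := fun z : ((((ℕ × List (List ℕ) × ℕ) × List ℕ) × List ℕ) × ℕ) × ℕ =>
          E (z.1.1.1.1.1 + z.1.1.1.1.2.2))
        (Q := fun z v => (decide (v.length ≤ z.1.1.1.1.2.2) && sb v z.1.1.1.2) &&
          tst a z.1.1.1.1.1 z.1.1.1.1.2.1 z.1.1.1.1.2.2 z.1.1.2 z.1.2 z.2 v) ?_ ?_
      · exact hadd (Computable.fst.comp (Computable.fst.comp (Computable.fst.comp
          (Computable.fst.comp Computable.fst)))) (Computable.snd.comp (Computable.snd.comp
          (Computable.fst.comp (Computable.fst.comp (Computable.fst.comp Computable.fst)))))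
      · refine c_and (c_and (c_le (p_len Computable.snd) ?_) (c_sb hX Computable.snd ?_)) htst
        · exact Computable.snd.comp (Computable.snd.comp (Computable.fst.comp
            (Computable.fst.comp (Computable.fst.comp (Computable.fst.comp Computable.fst)))))
        · exact Computable.snd.comp (Computable.fst.comp (Computable.fst.comp
            (Computable.fst.comp Computable.fst)))
  refine c_all hX (e := fun x : ℕ × List (List ℕ) × ℕ => E (x.1 + x.2.2))
    (Q := fun x X => !(sb X (List.range x.1) && smb x.1 x.2.1 X) ||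
      gdb a E x.1 x.2.1 x.2.2 X) ?_ ?_
  · exact hadd Computable.fst (Computable.snd.comp Computable.snd)
  · refine c_or (c_not (c_and (c_sb hX Computable.snd ?_) (c_smb hX ?_ ?_ Computable.snd))) hgdb
    · exact Primrec.list_range.to_comp.comp (Computable.fst.comp Computable.fst)
    · exact Computable.fst.comp Computable.fst
    · exact Computable.fst.comp (Computable.snd.comp Computable.fst)

section corr

variable {n : ℕ} {L : List (List ℕ)} {D : ℕ}

/-- the set of a list -/
def fs (n : ℕ) (X : List ℕ) : Finset (Fin n) := Finset.univ.filter fun i => i.val ∈ X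

theorem mem_fs {X : List ℕ} {i : Fin n} : i ∈ fs n X ↔ i.val ∈ X := by simp [fs]

theorem exl {l : List ℕ} (h : ∀ a ∈ l, a < n) : ∃ d : List (Fin n), d.map Fin.val = l := by
  induction l with
  | nil => exact ⟨[], rfl⟩
  | cons a l ih =>
    obtain ⟨d, hd⟩ := ih fun b hb => h b (List.mem_cons_of_mem _ hb)
    exact ⟨⟨a, h a (by simp)⟩ :: d, by rw [List.map_cons, hd]⟩

theorem map_po (l : List (Fin n)) :
    (po l).map (fun p => (p.1.val, p.2)) = po (l.map Fin.val) := by
  simp [po]

theorem map_inw (w : List (Fin n × Bool)) :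
    (inw w).map (fun p => (p.1.val, p.2)) = inw (w.map fun p => (p.1.val, p.2)) := by
  simp [inw, List.map_reverse]

theorem smb_iff {X : List ℕ} (hX : ∀ a ∈ X, a < n) :
    smb n L X = true ↔ Sm (mat n L) (fs n X) := by
  have h0 : smb n L X = true ↔ ∀ i ∈ X, ∀ j ∈ X, i = j ∨ (labN n L i j ≠ 0 ∧ labN n L i j < 100) := by
    simp [smb]
  rw [h0]
  constructor
  · intro h i hi j hj hij
    have h1 := h i.val (mem_fs.1 hi) j.val (mem_fs.1 hj)
    rw [labN_eq] at h1
    exact h1.resolve_left fun e => hij (Fin.ext e)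
  · intro h i hi j hj
    by_cases hij : i = j
    · exact Or.inl hij
    · right
      have h1 := h ⟨i, hX i hi⟩ (mem_fs.2 hi) ⟨j, hX j hj⟩ (mem_fs.2 hj) fun e =>
        hij (congrArg Fin.val e)
      rw [← labN_eq] at h1
      exact h1

theorem tst_iff {a : (ℕ × List (List ℕ)) × List (ℕ × Bool) × ℕ → Bool}
    (ha : ∀ n L (w : List (Fin n × Bool)) (N : ℕ),
      (a ((n, L), w.map (fun p => (p.1.val, p.2)), N) = true ↔ Area (mat n L) w N))
    (d v : List (Fin n)) (b b' : Fin n) :
    tst a n L D (d.map Fin.val) b.val b'.val (v.map Fin.val) = true ↔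
      Area (mat n L) (po (b :: d) ++ inw (po (d ++ [b']))) D ∧
      Area (mat n L) (po (b' :: d) ++ inw (po (d ++ [b]))) D ∧
      Area (mat n L) (po d ++ inw (po (b :: v))) D := by
  rw [← ha, ← ha, ← ha, tst, Bool.and_eq_true, Bool.and_eq_true, and_assoc]
  simp only [List.map_append, map_inw, map_po, List.map_cons, List.map_nil]

theorem gdb_iff {a : (ℕ × List (List ℕ)) × List (ℕ × Bool) × ℕ → Bool}
    (ha : ∀ n L (w : List (Fin n × Bool)) (N : ℕ),
      (a ((n, L), w.map (fun p => (p.1.val, p.2)), N) = true ↔ Area (mat n L) w N))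
    {E : ℕ → List (List ℕ)} (hE : ∀ N l, l ∈ E N ↔ l.length ≤ N ∧ ∀ b ∈ l, b < N)
    {X : List ℕ} (hX : ∀ a ∈ X, a < n) :
    gdb a E n L D X = true ↔ GD (mat n L) (fs n X) D := by
  have h0 : gdb a E n L D X = true ↔ ∃ d ∈ E (n + D), (d.length ≤ D ∧ ∀ a ∈ d, a ∈ X) ∧
      ∀ b ∈ X, ∃ b' ∈ X, ∃ v ∈ E (n + D), (v.length ≤ D ∧ ∀ a ∈ v, a ∈ X) ∧
        tst a n L D d b b' v = true := by
    simp only [gdb, List.any_eq_true, List.all_eq_true, Bool.and_eq_true, decide_eq_true_eq,
      sb_iff]
  rw [h0]
  constructor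
  · rintro ⟨d', -, ⟨hd1, hd2⟩, h⟩
    obtain ⟨d, rfl⟩ := exl fun a ha => hX a (hd2 a ha)
    refine ⟨d, by simpa using hd1, fun a ha => mem_fs.2 (hd2 _ (List.mem_map_of_mem ha)), ?_⟩
    intro b hb
    obtain ⟨b', hb', v', -, ⟨hv1, hv2⟩, ht⟩ := h b.val (mem_fs.1 hb)
    obtain ⟨v, rfl⟩ := exl fun a ha => hX a (hv2 a ha)
    refine ⟨⟨b', hX b' hb'⟩, mem_fs.2 hb', v, by simpa using hv1,
      fun a ha => mem_fs.2 (hv2 _ (List.mem_map_of_mem ha)), ?_⟩
    exact (tst_iff ha d v b ⟨b', hX b' hb'⟩).1 ht
  · rintro ⟨d, hd1, hd2, h⟩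
    refine ⟨d.map Fin.val, (hE _ _).2 ⟨by rw [List.length_map]; omega, ?_⟩,
      ⟨by rw [List.length_map]; exact hd1, ?_⟩, ?_⟩
    · intro b hb
      obtain ⟨i, -, rfl⟩ := List.mem_map.1 hb
      have := i.2
      omega
    · intro b hb
      obtain ⟨i, hi, rfl⟩ := List.mem_map.1 hb
      exact mem_fs.1 (hd2 i hi)
    · intro b hb
      obtain ⟨b', hb', v, hv1, hv2, ht⟩ := h ⟨b, hX b hb⟩ (mem_fs.2 hb)
      refine ⟨b'.val, mem_fs.1 hb', v.map Fin.val, (hE _ _).2 ⟨by rw [List.length_map]; omega, ?_⟩,
        ⟨by rw [List.length_map]; exact hv1, ?_⟩, ?_⟩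
      · intro c hc
        obtain ⟨i, -, rfl⟩ := List.mem_map.1 hc
        have := i.2
        omega
      · intro c hc
        obtain ⟨i, hi, rfl⟩ := List.mem_map.1 hc
        exact mem_fs.1 (hv2 i hi)
      · exact (tst_iff ha d v ⟨b, hX b hb⟩ b').2 ht

end corr

/-- GDC -/
theorem gdc (hA : S_ACO) (hX : S_CEX) (hS : S_CLS) : S_GDC := by
  obtain ⟨a, ha, ha'⟩ := hA
  obtain ⟨E, hE, hE'⟩ := hS ℕ List.range Primrec.list_range
  have hE2 : ∀ N l, l ∈ E N ↔ l.length ≤ N ∧ ∀ b ∈ l, b < N := by
    intro N l
    rw [hE']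
    simp only [List.mem_range]
  refine ⟨qq a E, c_qq hX ha hE.to_comp, fun n L D => ?_⟩
  have h0 : qq a E (n, L, D) = true ↔ ∀ X ∈ E (n + D), (∀ a ∈ X, a < n) → smb n L X = true →
      gdb a E n L D X = true := by
    simp only [qq, List.all_eq_true, Bool.or_eq_true, Bool.not_eq_true', ← Bool.not_eq_true]
    refine forall₂_congr fun X _ => ?_
    have hs : sb X (List.range n) = true ↔ ∀ a ∈ X, a < n := by
      rw [sb_iff]
      simp only [List.mem_range]
    rw [Bool.and_eq_true, hs]
    tauto
  rw [h0]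
  constructor
  · intro h Y hY
    have h1 : ∀ b ∈ Y.toList.map Fin.val, b < n := by
      intro b hb
      obtain ⟨i, -, rfl⟩ := List.mem_map.1 hb
      exact i.2
    have h2 : fs n (Y.toList.map Fin.val) = Y := by
      ext i
      rw [mem_fs, List.mem_map]
      constructor
      · rintro ⟨j, hj, hji⟩
        obtain rfl : j = i := Fin.ext hji
        exact Finset.mem_toList.1 hj
      · intro hi
        exact ⟨i, Finset.mem_toList.2 hi, rfl⟩
    have h3 := h (Y.toList.map Fin.val) ((hE2 _ _).2 ⟨by
      rw [List.length_map, Finset.length_toList]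
      have := Finset.card_le_univ Y
      rw [Fintype.card_fin] at this
      omega, fun b hb => by have := h1 b hb; omega⟩) h1 ((smb_iff h1).2 (by rw [h2]; exact hY))
    rw [gdb_iff ha' hE2 h1, h2] at h3
    exact h3
  · intro h X _ hX1 hX2
    rw [gdb_iff ha' hE2 hX1]
    exact h _ ((smb_iff hX1).1 hX2)

end Pool.Agent.L0h68.AL
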