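import Pool.Agent.L0h29.AL.ArtDefs4
import Pool.Agent.L0h68.AL.Cug

/-!
# Module FIN of project AL: the uniform word problem reduces to finite labels less than 100
-/

set_option autoImplicit false

namespace Pool.Agent.L0h68.AL

open Pool.Agent.K7.H20.AW Pool.Agent.L0h29.AL

theorem ent_clL {n : ℕ} (L : List (List ℕ)) (X : List ℕ) {i j : ℕ} (hi : i < n) (hj : j < n) :
    ((clL n L X).getD i []).getD j 0 = if i ∈ X ∧ j ∈ X then ent L i j else 2 := by
  have h1 : (clL n L X).getD i [] =
      (List.range n).map fun j => if i ∈ X ∧ j ∈ X then ent L i j else 2 := by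
    rw [clL, List.getD_eq_getElem _ _ (by simpa using hi), List.getElem_map, List.getElem_range]
  rw [h1, List.getD_eq_getElem _ _ (by simpa using hj), List.getElem_map, List.getElem_range]

theorem ent_minmax (L : List (List ℕ)) (i j : ℕ) : ent L (min i j) (max i j) = ent L i j := by
  unfold ent
  rw [min_eq_left (show min i j ≤ max i j from min_le_max),
    max_eq_right (show min i j ≤ max i j from min_le_max)]

theorem mat_clL {n : ℕ} (L : List (List ℕ)) (X : List ℕ) (i j : Fin n) :
    mat n (clL n L X) i j =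
      if i = j then 1 else if i.val ∈ X ∧ j.val ∈ X then mat n L i j else 2 := by
  have h0 : lb (clL n L X) i j = if i.val ∈ X ∧ j.val ∈ X then ent L i j else 2 := by
    rw [lb, ent_clL L X (lt_of_le_of_lt (min_le_left _ _) i.2) (max_lt i.2 j.2), ent_minmax]
    congr 1
    rcases le_total i.val j.val with h | h
    · rw [min_eq_left h, max_eq_right h]
    · rw [min_eq_right h, max_eq_left h, and_comm]
  rw [mat_apply, mat_apply, h0]
  by_cases hij : i = j
  · rw [if_pos hij, if_pos hij]
  · rw [if_neg hij, if_neg hij, if_neg hij]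
    by_cases hX : i.val ∈ X ∧ j.val ∈ X
    · rw [if_pos hX, if_pos hX]
      rfl
    · rw [if_neg hX, if_neg hX, if_neg (by norm_num)]

/-- FIN -/
theorem fin (hC : S_CUG) (hG : S_GPG) : S_FIN := by
  rintro ⟨f, hf, hf'⟩
  obtain ⟨f1, hf1, hf1'⟩ := hG f hf
  obtain ⟨f2, hf2, hf2'⟩ := hC f1 hf1
  refine ⟨f2, hf2, ?_⟩
  rintro ⟨n, L, w⟩
  refine hf2' n L (fun w => hf1' n (trL L) (fun X hX w => ?_) w) w
  refine hf' (n, clL n (trL L) X, w) fun i j => ?_
  have h100 : mat n (trL L) i j < 100 := by
    rw [mat_tr]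
    show (if i = j then 1 else if 100 ≤ mat n L i j then 0 else mat n L i j) < 100
    split_ifs <;> omega
  show mat n (clL n (trL L) X) i j ≠ 0 ∧ mat n (clL n (trL L) X) i j < 100
  rw [mat_clL]
  by_cases hij : i = j
  · rw [if_pos hij]; omega
  · rw [if_neg hij]
    by_cases hX' : i.val ∈ X ∧ j.val ∈ X
    · rw [if_pos hX']
      exact ⟨hX i j hX'.1 hX'.2, h100⟩
    · rw [if_neg hX']; omega

end Pool.Agent.L0h68.AL
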