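import Pool.Agent.L0h29.AL.ArtDefs3
import Pool.Agent.Helper425_zc.Comp

/-!
# Module RAC of project AL: the word problem of right-angled Artin groups is uniformly computable
-/

set_option autoImplicit false

namespace Pool.Agent.L0h68.AL

open Pool.Agent.K7.H20.AW Pool.Agent.L0h29.AL

/-! ## 1. the procedure on codes -/

/-- the entry `(i, j)` -/
def lb (L : List (List ℕ)) (i j : ℕ) : ℕ := (L.getD (min i j) []).getD (max i j) 0

/-- `insert` on codes -/
def insN (L : List (List ℕ)) (b : ℕ) (k : ℤ) : List (ℕ × ℤ) → List (ℕ × ℤ)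
  | [] => [(b, k)]
  | (c, l) :: w =>
    if c = b then (if k + l = 0 then w else (b, k + l) :: w)
    else if lb L c b = 2 then (c, l) :: insN L b k w
    else (b, k) :: (c, l) :: w

/-- the procedure on codes -/
def redN (x : ℕ × List (List ℕ) × List (ℕ × Bool)) : List (ℕ × ℤ) :=
  x.2.2.foldr (fun p s => if p.1 < x.1 then insN x.2.1 p.1 (if p.2 then 1 else -1) s else s) []

section prim

variable {α : Type*} [Primcodable α]

theorem prim_lb {f : α → List (List ℕ)} {i j : α → ℕ} (hf : Primrec f) (hi : Primrec i)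
    (hj : Primrec j) : Primrec fun a => lb (f a) (i a) (j a) :=
  (Primrec.list_getD 0).comp ((Primrec.list_getD []).comp hf (Primrec.nat_min.comp hi hj))
    (Primrec.nat_max.comp hi hj)

theorem prim_ins : Primrec fun a : (List (List ℕ) × ℕ × ℤ) × List (ℕ × ℤ) =>
    insN a.1.1 a.1.2.1 a.1.2.2 a.2 := by
  have hh : Primrec₂ fun (a : (List (List ℕ) × ℕ × ℤ) × List (ℕ × ℤ))
      (q : (ℕ × ℤ) × List (ℕ × ℤ) × List (ℕ × ℤ)) =>
      if q.1.1 = a.1.2.1 then
        (if a.1.2.2 + q.1.2 = 0 then q.2.1 else (a.1.2.1, a.1.2.2 + q.1.2) :: q.2.1)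
      else if lb a.1.1 q.1.1 a.1.2.1 = 2 then q.1 :: q.2.2
      else (a.1.2.1, a.1.2.2) :: q.1 :: q.2.1 := by
    have hL : Primrec fun z : ((List (List ℕ) × ℕ × ℤ) × List (ℕ × ℤ)) ×
        ((ℕ × ℤ) × List (ℕ × ℤ) × List (ℕ × ℤ)) => z.1.1.1 :=
      Primrec.fst.comp (Primrec.fst.comp Primrec.fst)
    have hb : Primrec fun z : ((List (List ℕ) × ℕ × ℤ) × List (ℕ × ℤ)) ×
        ((ℕ × ℤ) × List (ℕ × ℤ) × List (ℕ × ℤ)) => z.1.1.2.1 :=
      Primrec.fst.comp (Primrec.snd.comp (Primrec.fst.comp Primrec.fst))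
    have hk : Primrec fun z : ((List (List ℕ) × ℕ × ℤ) × List (ℕ × ℤ)) ×
        ((ℕ × ℤ) × List (ℕ × ℤ) × List (ℕ × ℤ)) => z.1.1.2.2 :=
      Primrec.snd.comp (Primrec.snd.comp (Primrec.fst.comp Primrec.fst))
    have hc : Primrec fun z : ((List (List ℕ) × ℕ × ℤ) × List (ℕ × ℤ)) ×
        ((ℕ × ℤ) × List (ℕ × ℤ) × List (ℕ × ℤ)) => z.2.1 :=
      Primrec.fst.comp Primrec.snd
    have hc1 : Primrec fun z : ((List (List ℕ) × ℕ × ℤ) × List (ℕ × ℤ)) ×
        ((ℕ × ℤ) × List (ℕ × ℤ) × List (ℕ × ℤ)) => z.2.1.1 := Primrec.fst.comp hc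
    have hc2 : Primrec fun z : ((List (List ℕ) × ℕ × ℤ) × List (ℕ × ℤ)) ×
        ((ℕ × ℤ) × List (ℕ × ℤ) × List (ℕ × ℤ)) => z.2.1.2 := Primrec.snd.comp hc
    have hw : Primrec fun z : ((List (List ℕ) × ℕ × ℤ) × List (ℕ × ℤ)) ×
        ((ℕ × ℤ) × List (ℕ × ℤ) × List (ℕ × ℤ)) => z.2.2.1 :=
      Primrec.fst.comp (Primrec.snd.comp Primrec.snd)
    have hI : Primrec fun z : ((List (List ℕ) × ℕ × ℤ) × List (ℕ × ℤ)) ×
        ((ℕ × ℤ) × List (ℕ × ℤ) × List (ℕ × ℤ)) => z.2.2.2 :=
      Primrec.snd.comp (Primrec.snd.comp Primrec.snd)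
    have hkl := Helper425_zc.prim_add.comp hk hc2
    exact Primrec.ite (Primrec.eq.comp hc1 hb)
      (Primrec.ite (Primrec.eq.comp hkl (Primrec.const 0)) hw
        (Primrec.list_cons.comp (Primrec.pair hb hkl) hw))
      (Primrec.ite (Primrec.eq.comp (prim_lb hL hc1 hb) (Primrec.const 2))
        (Primrec.list_cons.comp hc hI)
        (Primrec.list_cons.comp (Primrec.pair hb hk) (Primrec.list_cons.comp hc hw)))
  refine (Primrec.list_rec (f := fun a : (List (List ℕ) × ℕ × ℤ) × List (ℕ × ℤ) => a.2)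
    (g := fun a => [(a.1.2.1, a.1.2.2)]) Primrec.snd ?_ hh).of_eq fun a => ?_
  · exact Primrec.list_cons.comp (Primrec.snd.comp Primrec.fst) (Primrec.const [])
  · obtain ⟨⟨L, b, k⟩, w⟩ := a
    show (List.recOn w [(b, k)] _ : List (ℕ × ℤ)) = insN L b k w
    induction w with
    | nil => rfl
    | cons c w ih =>
      rw [insN, ← ih]

theorem prim_red : Primrec redN := by
  have hh : Primrec₂ fun (x : ℕ × List (List ℕ) × List (ℕ × Bool))
      (q : (ℕ × Bool) × List (ℕ × ℤ)) =>
      if q.1.1 < x.1 then insN x.2.1 q.1.1 (if q.1.2 then 1 else -1) q.2 else q.2 := by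
    have hn : Primrec fun z : (ℕ × List (List ℕ) × List (ℕ × Bool)) ×
        ((ℕ × Bool) × List (ℕ × ℤ)) => z.1.1 := Primrec.fst.comp Primrec.fst
    have hL : Primrec fun z : (ℕ × List (List ℕ) × List (ℕ × Bool)) ×
        ((ℕ × Bool) × List (ℕ × ℤ)) => z.1.2.1 :=
      Primrec.fst.comp (Primrec.snd.comp Primrec.fst)
    have hb : Primrec fun z : (ℕ × List (List ℕ) × List (ℕ × Bool)) ×
        ((ℕ × Bool) × List (ℕ × ℤ)) => z.2.1.1 :=
      Primrec.fst.comp (Primrec.fst.comp Primrec.snd)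
    have he : Primrec fun z : (ℕ × List (List ℕ) × List (ℕ × Bool)) ×
        ((ℕ × Bool) × List (ℕ × ℤ)) => z.2.1.2 :=
      Primrec.snd.comp (Primrec.fst.comp Primrec.snd)
    have hs : Primrec fun z : (ℕ × List (List ℕ) × List (ℕ × Bool)) ×
        ((ℕ × Bool) × List (ℕ × ℤ)) => z.2.2 := Primrec.snd.comp Primrec.snd
    have hk : Primrec fun b : Bool => if b then (1 : ℤ) else -1 := Primrec.dom_bool _
    exact Primrec.ite (Primrec.nat_lt.comp hb hn)
      (prim_ins.comp (Primrec.pair (Primrec.pair hL (Primrec.pair hb (hk.comp he))) hs)) hs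
  exact Primrec.list_foldr (f := fun x : ℕ × List (List ℕ) × List (ℕ × Bool) => x.2.2)
    (g := fun _ => []) (Primrec.snd.comp Primrec.snd) (Primrec.const []) hh

end prim

/-! ## 2. correctness -/

section corr

variable {n : ℕ} {L : List (List ℕ)}

theorem mat_apply (i j : Fin n) : mat n L i j = if i = j then 1 else
    if lb L i j = 1 then 0 else lb L i j := rfl

theorem mat_two {i j : Fin n} (hij : i ≠ j) : mat n L i j = 2 ↔ lb L i j = 2 := by
  rw [mat_apply, if_neg hij]
  split_ifs with h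
  · rw [h]; norm_num
  · rfl

/-- the code of a syllable -/
def cd {n : ℕ} (p : Fin n × ℤ) : ℕ × ℤ := (p.1.val, p.2)

theorem insN_map (b : Fin n) (k : ℤ) (w : List (Fin n × ℤ)) :
    insN L b k (w.map cd) = (K7.H20.AW.insert (mat n L) b k w).map cd := by
  induction w with
  | nil => rfl
  | cons c w ih =>
    obtain ⟨c, l⟩ := c
    rw [List.map_cons, cd, insN, K7.H20.AW.insert]
    by_cases h : c = b
    · rw [if_pos (by rw [h]), if_pos h]
      split_ifs <;> rfl
    · rw [if_neg (fun e => h (Fin.ext e)), if_neg h]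
      by_cases h2 : mat n L c b = 2
      · rw [if_pos ((mat_two h).1 h2), if_pos h2, ih]
        rfl
      · rw [if_neg (fun e => h2 ((mat_two h).2 e)), if_neg h2]
        rfl

/-- the word in syllables -/
def wf (n : ℕ) : List (ℕ × Bool) → List (Fin n × ℤ)
  | [] => []
  | p :: w => if h : p.1 < n then (⟨p.1, h⟩, if p.2 then 1 else -1) :: wf n w else wf n w

theorem redN_eq (w : List (ℕ × Bool)) :
    redN (n, L, w) = (reduce (mat n L) (wf n w)).map cd := by
  induction w with
  | nil => rfl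
  | cons p w ih =>
    have h0 : redN (n, L, p :: w) = if p.1 < n then
        insN L p.1 (if p.2 then 1 else -1) (redN (n, L, w)) else redN (n, L, w) := rfl
    rw [h0, wf]
    by_cases h : p.1 < n
    · have hk : (if p.2 = true then (1 : ℤ) else -1) ≠ 0 := by
        cases p.2 <;> decide
      rw [if_pos h, dif_pos h, reduce, if_neg hk, ih, ← insN_map (L := L) (⟨p.1, h⟩ : Fin n)]
    · rw [if_neg h, dif_neg h, ih]

theorem nval_eq (M : CoxeterMatrix (Fin n)) (w : List (ℕ × Bool)) : nval M w = value M (wf n w) := by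
  induction w with
  | nil => rfl
  | cons p w ih =>
    have h0 : nval M (p :: w) = (if h : p.1 < n then
        (if p.2 then (PresentedGroup.of ⟨p.1, h⟩ : ArtinGroup M) else
        (PresentedGroup.of ⟨p.1, h⟩ : ArtinGroup M)⁻¹) else 1) * nval M w := by
      simp [nval]
    rw [h0, wf]
    by_cases h : p.1 < n
    · rw [dif_pos h, dif_pos h, ih]
      have h1 : value M ((⟨p.1, h⟩, if p.2 then 1 else -1) :: wf n w) =
          (PresentedGroup.of ⟨p.1, h⟩ : ArtinGroup M) ^ (if p.2 then (1 : ℤ) else -1) *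
            value M (wf n w) := by
        simp [value]
      rw [h1]
      congr 1
      split_ifs
      · rw [zpow_one]
      · rw [zpow_neg_one]
    · rw [dif_neg h, dif_neg h, one_mul, ih]

theorem ra_eq {M : CoxeterMatrix (Fin n)} (h : ∀ i j, M i j ≤ 2) : ra M = M := by
  ext i j
  show ra M i j = M i j
  rw [ra_apply]
  by_cases hij : i = j
  · rw [if_pos hij, hij, M.diagonal]
  · rw [if_neg hij]
    have h1 := M.off_diagonal i j hij
    have h2 := h i j
    split_ifs with h3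
    · exact h3.symm
    · omega

end corr

/-- RAC -/
theorem rac : S_RAC := by
  refine ⟨fun x => decide (redN x = []), ?_, ?_⟩
  · exact (Primrec.eq.comp prim_red (Primrec.const [])).decide.to_comp
  · intro n L hM w
    rw [decide_eq_true_iff, redN_eq, List.map_eq_nil_iff, reduce_iff, ra_eq hM, ← value_iff,
      ← nval_eq]
    rfl

end Pool.Agent.L0h68.AL
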